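import Pool.Agent.H30.EE.TargetsU
import Pool.Agent.H27.LV.Curve

set_option autoImplicit false

open MvPolynomial SC Pool.Agent.H27.LV Pool.Agent.H17.VG Pool.Agent.H30.EE

namespace Pool.Agent.H12.EE

section A

variable {k K : Type} [Field k] [Field K] [Algebra k K]

lemma mo_congr {κ κ' : Type} (v : DV k K) (P : κ → K) (Q : κ' → K)
    (h : ∀ a : ℤ, (∃ i, P i ≠ 0 ∧ v.ord (P i) = a) ↔ ∃ j, Q j ≠ 0 ∧ v.ord (Q j) = a) :
    mo v P = mo v Q := by
  unfold mo
  congr 1
  ext a
  exact h a

/-- the least order of `(1, φ)` -/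
lemma mo_cons (hMO : T_MO) {m : ℕ} (v : DV k K) (φ : Fin m → K) :
    mo v (Fin.cons 1 φ : Fin (m + 1) → K) ≤ 0 ∧
    (∀ i, ge v (mo v (Fin.cons 1 φ : Fin (m + 1) → K)) (φ i)) ∧
    ∀ a : ℤ, a ≤ 0 → (∀ i, ge v a (φ i)) → a ≤ mo v (Fin.cons 1 φ : Fin (m + 1) → K) := by
  have hne : (Fin.cons 1 φ : Fin (m + 1) → K) ≠ 0 := by
    intro h
    have := congrFun h 0
    simp at this
  obtain ⟨h1, h2, h3, -, -⟩ := (hMO k K v (Fin (m + 1)) (Fin.cons 1 φ)).2 hne
  refine ⟨?_, ?_, ?_⟩
  · have h4 := h1 0
    rw [Fin.cons_zero] at h4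
    rcases h4 with h4 | h4
    · exact absurd h4 one_ne_zero
    · rwa [v.ord_one] at h4
  · intro i
    have h4 := h1 i.succ
    rwa [Fin.cons_succ] at h4
  · intro a ha h
    apply h3
    intro i
    refine Fin.cases ?_ (fun i => ?_) i
    · rw [Fin.cons_zero]
      exact (ge_one v).mono ha
    · rw [Fin.cons_succ]
      exact h i

lemma hgt_le_of {κ κ' κ'' : Type} (P : κ → K) (Q : κ' → K) (R : κ'' → K)
    (hP : {v : DV k K | mo v P ≠ 0}.Finite) (hQ : {v : DV k K | mo v Q ≠ 0}.Finite)
    (hR : {v : DV k K | mo v R ≠ 0}.Finite) (h : ∀ v : DV k K, mo v P + mo v Q ≤ mo v R) :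
    hgt k R ≤ hgt k P + hgt k Q := by
  classical
  unfold hgt
  obtain ⟨S, hS⟩ : ∃ S : Finset (DV k K), S = hP.toFinset ∪ hQ.toFinset ∪ hR.toFinset := ⟨_, rfl⟩
  rw [finsum_eq_sum_of_support_subset (s := S) (fun v => mo v P),
    finsum_eq_sum_of_support_subset (s := S) (fun v => mo v Q),
    finsum_eq_sum_of_support_subset (s := S) (fun v => mo v R)]
  · have h1 : ∑ v ∈ S, mo v P + ∑ v ∈ S, mo v Q ≤ ∑ v ∈ S, mo v R := by
      rw [← Finset.sum_add_distrib]
      exact Finset.sum_le_sum fun v _ => h v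
    linarith
  · intro v hv
    rw [hS]
    simp only [Finset.coe_union, Set.Finite.coe_toFinset]
    exact Or.inr hv
  · intro v hv
    rw [hS]
    simp only [Finset.coe_union, Set.Finite.coe_toFinset]
    exact Or.inl (Or.inr hv)
  · intro v hv
    rw [hS]
    simp only [Finset.coe_union, Set.Finite.coe_toFinset]
    exact Or.inl (Or.inl hv)

end A

theorem pf_PHI (hMO : T_MO) (hHG : T_HG) : T_PHI := by
  classical
  intro k K _ _ _ _ _ _ htr n r x L ρ hρ hno hrel
  -- elementary facts on heights
  have hfin : ∀ {m : ℕ} (P : Fin m → K), {v : DV k K | mo v P ≠ 0}.Finite := fun P =>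
    (hHG k K htr _ P).1
  have hadd : ∀ {m : ℕ} (φ ψ : Fin m → K),
      hgt k (Fin.cons 1 (φ + ψ) : Fin (m + 1) → K) ≤
        hgt k (Fin.cons 1 φ : Fin (m + 1) → K) + hgt k (Fin.cons 1 ψ : Fin (m + 1) → K) := by
    intro m φ ψ
    refine hgt_le_of _ _ _ (hfin _) (hfin _) (hfin _) fun v => ?_
    obtain ⟨a1, a2, -⟩ := mo_cons hMO v φ
    obtain ⟨b1, b2, -⟩ := mo_cons hMO v ψ
    refine (mo_cons hMO v (φ + ψ)).2.2 _ (by omega) fun i => ?_
    exact ((a2 i).mono (by omega)).add ((b2 i).mono (by omega))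
  have hsub : ∀ {m : ℕ} (φ ψ : Fin m → K), φ ≠ ψ →
      hgt k (φ - ψ) ≤
        hgt k (Fin.cons 1 φ : Fin (m + 1) → K) + hgt k (Fin.cons 1 ψ : Fin (m + 1) → K) := by
    intro m φ ψ hne
    refine hgt_le_of _ _ _ (hfin _) (hfin _) (hfin _) fun v => ?_
    obtain ⟨a1, a2, -⟩ := mo_cons hMO v φ
    obtain ⟨b1, b2, -⟩ := mo_cons hMO v ψ
    refine ((hMO k K v (Fin m) (φ - ψ)).2 (sub_ne_zero.2 hne)).2.2.1 _ fun i => ?_
    exact ((a2 i).mono (by omega)).sub ((b2 i).mono (by omega))
  have hsmul : ∀ {m : ℕ} (c : k) (φ : Fin m → K),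
      hgt k (Fin.cons 1 (c • φ) : Fin (m + 1) → K) ≤ hgt k (Fin.cons 1 φ : Fin (m + 1) → K) := by
    intro m c φ
    have h0 : {v : DV k K | mo v (fun _ : Fin 0 => (0 : K)) ≠ 0}.Finite := hfin _
    have h00 : hgt k (fun _ : Fin 0 => (0 : K)) = 0 := by
      have := (hHG k K htr (Fin 0) (fun _ => (0 : K))).2.2.2.1 (fun _ => 0)
      simpa using this
    have h5 := hgt_le_of (k := k) (Fin.cons 1 φ : Fin (m + 1) → K) (fun _ : Fin 0 => (0 : K))
      (Fin.cons 1 (c • φ) : Fin (m + 1) → K) (hfin _) h0 (hfin _) fun v => by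
        obtain ⟨a1, a2, -⟩ := mo_cons hMO v φ
        have h6 : mo v (fun _ : Fin 0 => (0 : K)) = 0 := (hMO k K v (Fin 0) _).1 rfl
        rw [h6, add_zero]
        refine (mo_cons hMO v (c • φ)).2.2 _ a1 fun i => ?_
        have h7 := (ge_const v c).mul (a2 i)
        rw [zero_add] at h7
        rw [Pi.smul_apply, Algebra.smul_def]
        exact h7
    rw [h00, add_zero] at h5
    exact h5
  have hcst : ∀ {m : ℕ} (a : Fin m → k),
      hgt k (Fin.cons 1 (fun i => algebraMap k K (a i)) : Fin (m + 1) → K) = 0 := by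
    intro m a
    have h1 := (hHG k K htr (Fin (m + 1)) (fun _ => (0 : K))).2.2.2.1 (Fin.cons 1 a)
    have h2 : (fun i : Fin (m + 1) => algebraMap k K ((Fin.cons 1 a : Fin (m + 1) → k) i)) =
        (Fin.cons 1 (fun i => algebraMap k K (a i)) : Fin (m + 1) → K) := by
      funext i
      refine Fin.cases ?_ (fun i => ?_) i
      · simp
      · simp
    rwa [h2] at h1
  -- uniqueness
  have huniq : ∀ φ ψ : Fin (r + 1) → K,
      ∑ i, φ i * el (L i) x = ∑ i, ψ i * el (L i) x →
      hgt k (Fin.cons 1 φ : Fin (r + 2) → K) + hgt k (Fin.cons 1 ψ : Fin (r + 2) → K) ≤ 3 * ρ →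
      φ = ψ := by
    intro φ ψ h1 h2
    by_contra hne
    refine hno ⟨φ - ψ, sub_ne_zero.2 hne, ?_, (hsub φ ψ hne).trans h2⟩
    simp only [Pi.sub_apply, sub_mul, Finset.sum_sub_distrib]
    exact sub_eq_zero.2 h1
  -- existence
  have hex : ∀ l : Fin (n + 1) → k, ∃ φ : Fin (r + 1) → K,
      el l x = ∑ i, φ i * el (L i) x ∧ hgt k (Fin.cons 1 φ : Fin (r + 2) → K) ≤ ρ := by
    intro l
    obtain ⟨a, ha0, hsum, hh⟩ := hrel l
    rw [Fin.sum_univ_castSucc] at hsum
    simp only [Fin.snoc_castSucc, Fin.snoc_last] at hsum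
    have hlast : a (Fin.last (r + 1)) ≠ 0 := by
      intro h0
      refine hno ⟨fun i => a i.castSucc, ?_, ?_, ?_⟩
      · intro h1
        apply ha0
        funext i
        refine Fin.lastCases ?_ (fun i => ?_) i
        · exact h0
        · exact congrFun h1 i
      · rw [h0, zero_mul, add_zero] at hsum
        exact hsum
      · have h3 : hgt k (fun i : Fin (r + 1) => a i.castSucc) = hgt k a := by
          unfold hgt
          congr 1
          refine finsum_congr fun v => mo_congr v _ _ fun b => ?_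
          constructor
          · rintro ⟨i, h4, h5⟩
            exact ⟨i.castSucc, h4, h5⟩
          · rintro ⟨i, h4, h5⟩
            revert h4 h5
            refine Fin.lastCases ?_ (fun i => ?_) i
            · intro h4
              exact absurd h0 h4
            · intro h4 h5
              exact ⟨i, h4, h5⟩
        rw [h3]
        linarith
    refine ⟨fun i => -(a i.castSucc / a (Fin.last (r + 1))), ?_, ?_⟩
    · have h1 : ∑ i : Fin (r + 1), -(a i.castSucc / a (Fin.last (r + 1))) * el (L i) x =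
          -(∑ i : Fin (r + 1), a i.castSucc * el (L i) x) / a (Fin.last (r + 1)) := by
        rw [neg_div, Finset.sum_div, ← Finset.sum_neg_distrib]
        refine Finset.sum_congr rfl fun i _ => ?_
        ring
      rw [h1, eq_div_iff hlast]
      linear_combination hsum
    · have h2 := (hHG k K htr (Fin (r + 2)) a).2.2.1 (-(a (Fin.last (r + 1)))⁻¹)
        (neg_ne_zero.2 (inv_ne_zero hlast))
      refine le_of_eq_of_le (Eq.trans ?_ h2) hh
      unfold hgt
      congr 1
      refine finsum_congr fun v => mo_congr v _ _ fun b => ?_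
      have h3 : (-(a (Fin.last (r + 1)))⁻¹ • a) (Fin.last (r + 1)) = -1 := by
        rw [Pi.smul_apply, smul_eq_mul, neg_mul, inv_mul_cancel₀ hlast]
      have h4 : ∀ i : Fin (r + 1), (-(a (Fin.last (r + 1)))⁻¹ • a) i.castSucc =
          -(a i.castSucc / a (Fin.last (r + 1))) := by
        intro i
        rw [Pi.smul_apply, smul_eq_mul]
        ring
      constructor
      · rintro ⟨i, h5, h6⟩
        revert h5 h6
        refine Fin.cases ?_ (fun i => ?_) i
        · intro _ h6
          refine ⟨Fin.last (r + 1), ?_, ?_⟩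
          · rw [h3]
            exact neg_ne_zero.2 one_ne_zero
          · rw [h3, v.ord_neg]
            rwa [Fin.cons_zero] at h6
        · intro h5 h6
          rw [Fin.cons_succ] at h5 h6
          exact ⟨i.castSucc, by rwa [h4], by rwa [h4]⟩
      · rintro ⟨i, h5, h6⟩
        revert h5 h6
        refine Fin.lastCases ?_ (fun i => ?_) i
        · intro _ h6
          refine ⟨0, ?_, ?_⟩
          · rw [Fin.cons_zero]
            exact one_ne_zero
          · rw [h3, v.ord_neg] at h6
            rwa [Fin.cons_zero]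
        · intro h5 h6
          rw [h4] at h5 h6
          exact ⟨i.succ, by rwa [Fin.cons_succ], by rwa [Fin.cons_succ]⟩
  choose φ hφ hφh using hex
  have hel_add : ∀ l l' : Fin (n + 1) → k, el (l + l') x = el l x + el l' x := by
    intro l l'
    unfold Pool.Agent.H30.EE.el
    rw [← Finset.sum_add_distrib]
    refine Finset.sum_congr rfl fun i _ => ?_
    rw [Pi.add_apply, map_add, add_mul]
  have hel_smul : ∀ (c : k) (l : Fin (n + 1) → k), el (c • l) x = algebraMap k K c * el l x := by
    intro c l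
    unfold Pool.Agent.H30.EE.el
    rw [Finset.mul_sum]
    refine Finset.sum_congr rfl fun i _ => ?_
    rw [Pi.smul_apply, smul_eq_mul, map_mul, mul_assoc]
  let Φ : (Fin (n + 1) → k) →ₗ[k] (Fin (r + 1) → K) :=
    { toFun := φ
      map_add' := by
        intro l l'
        refine huniq _ _ ?_ ?_
        · rw [← hφ, hel_add, hφ l, hφ l', ← Finset.sum_add_distrib]
          refine Finset.sum_congr rfl fun i _ => ?_
          rw [Pi.add_apply, add_mul]
        · have h1 := hadd (φ l) (φ l')
          have h2 := hφh (l + l')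
          have h3 := hφh l
          have h4 := hφh l'
          linarith
      map_smul' := by
        intro c l
        refine huniq _ _ ?_ ?_
        · rw [← hφ, hel_smul, hφ l, Finset.mul_sum]
          refine Finset.sum_congr rfl fun i _ => ?_
          rw [RingHom.id_apply, Pi.smul_apply, Algebra.smul_def, mul_assoc]
        · have h1 := hsmul c (φ l)
          have h2 := hφh (c • l)
          have h3 := hφh l
          rw [RingHom.id_apply]
          linarith }
  have hΦ : ∀ l, Φ l = φ l := fun l => rfl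
  have hL : ∀ i : Fin (r + 1), φ (L i) = fun i' => if i' = i then 1 else 0 := by
    intro i
    refine huniq _ _ ?_ ?_
    · rw [← hφ]
      simp
    · have h1 := hφh (L i)
      have h2 := hcst (fun i' : Fin (r + 1) => if i' = i then (1 : k) else 0)
      have h3 : (fun i' : Fin (r + 1) => algebraMap k K (if i' = i then (1 : k) else 0)) =
          fun i' => if i' = i then (1 : K) else 0 := by
        funext i'
        split_ifs <;> simp
      rw [h3] at h2
      rw [h2]
      linarith
  have hlin : ∀ (l : Fin (n + 1) → k) (i : Fin (r + 1)),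
      el l (fun j => φ (Pi.single j 1) i) = φ l i := by
    intro l i
    rw [← hΦ l, LinearMap.pi_apply_eq_sum_univ Φ l]
    unfold Pool.Agent.H30.EE.el
    rw [Finset.sum_apply]
    refine Finset.sum_congr rfl fun j _ => ?_
    rw [Pi.smul_apply, Algebra.smul_def, hΦ]
    have h9 : (Pi.single j 1 : Fin (n + 1) → k) = fun j' => if j = j' then 1 else 0 := by
      funext j'
      rw [Pi.single_apply]
      by_cases h : j' = j
      · rw [if_pos h, if_pos h.symm]
      · rw [if_neg h, if_neg (fun h' => h h'.symm)]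
    rw [← h9]
  refine ⟨fun i j => φ (Pi.single j 1) i, ?_, ?_, ?_⟩
  · intro j
    have h1 := hφ (Pi.single j 1)
    have h2 : el (Pi.single j (1 : k)) x = x j := by
      unfold Pool.Agent.H30.EE.el
      rw [Finset.sum_eq_single j]
      · simp
      · intro i _ hi
        rw [Pi.single_eq_of_ne hi]
        simp
      · intro h
        exact absurd (Finset.mem_univ j) h
    rw [h2] at h1
    rw [h1]
    refine Finset.sum_congr rfl fun i _ => ?_
    ring
  · intro i i'
    change el (L i') (fun j => φ (Pi.single j 1) i) = _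
    rw [hlin, hL]
    change (if i = i' then (1 : K) else 0) = _
    by_cases h : i = i'
    · rw [if_pos h, if_pos h.symm]
    · rw [if_neg h, if_neg (fun h' => h h'.symm)]
  · intro l
    have h1 : (fun i => el l (fun j => φ (Pi.single j 1) i)) = φ l := funext fun i => hlin l i
    change hgt k (Fin.cons 1 (fun i => el l (fun j => φ (Pi.single j 1) i)) : Fin (r + 2) → K) ≤ ρ
    rw [h1]
    exact hφh l

end Pool.Agent.H12.EE
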